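import Pool.Agent.helper46.ESM.Spec

set_option autoImplicit false

namespace Pool.Agent.helper46.ESM

open Subgroup Pool.Agent.helper80.EN

universe u

theorem FCJ_mem {G : Type u} [Group G] (a x : G) (hx : x ∈ normalClosure ({a} : Set G)) :
    ∃ T : Finset G, (∀ t ∈ T, IsConj a t) ∧ x ∈ closure (T : Set G) := by
  classical
  have hx' : x ∈ closure (Group.conjugatesOfSet ({a} : Set G)) := hx
  induction hx' using closure_induction with
  | mem y hy =>
    refine ⟨{y}, ?_, subset_closure (by simp)⟩
    intro t ht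
    rw [Finset.mem_singleton] at ht
    rw [ht]
    obtain ⟨b, hb, hby⟩ := Group.mem_conjugatesOfSet_iff.1 hy
    rw [Set.mem_singleton_iff] at hb
    rw [hb] at hby
    exact hby
  | one => exact ⟨∅, by simp, one_mem _⟩
  | mul y z hy hz ih1 ih2 =>
    obtain ⟨T1, h1, h2⟩ := ih1 hy
    obtain ⟨T2, h3, h4⟩ := ih2 hz
    refine ⟨T1 ∪ T2, ?_, ?_⟩
    · intro t ht
      rcases Finset.mem_union.1 ht with h | h
      · exact h1 t h
      · exact h3 t h
    · refine mul_mem ?_ ?_
      · exact closure_mono (by
          intro w hw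
          exact Finset.mem_coe.2 (Finset.mem_union_left _ (Finset.mem_coe.1 hw))) h2
      · exact closure_mono (by
          intro w hw
          exact Finset.mem_coe.2 (Finset.mem_union_right _ (Finset.mem_coe.1 hw))) h4
  | inv y hy ih =>
    obtain ⟨T1, h1, h2⟩ := ih hy
    exact ⟨T1, h1, inv_mem h2⟩

theorem FCJ_fin {G : Type u} [Group G] (a : G) (S : Finset G)
    (hS : ∀ s ∈ S, s ∈ normalClosure ({a} : Set G)) :
    ∃ T : Finset G, (∀ t ∈ T, IsConj a t) ∧ ∀ s ∈ S, s ∈ closure (T : Set G) := by
  classical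
  induction S using Finset.induction_on with
  | empty => exact ⟨∅, by simp, by simp⟩
  | insert b S hb ih =>
    obtain ⟨T1, h1, h2⟩ := ih (fun s hs => hS s (Finset.mem_insert_of_mem hs))
    obtain ⟨T2, h3, h4⟩ := FCJ_mem a b (hS b (Finset.mem_insert_self _ _))
    refine ⟨T1 ∪ T2, ?_, ?_⟩
    · intro t ht
      rcases Finset.mem_union.1 ht with h | h
      · exact h1 t h
      · exact h3 t h
    · intro s hs
      rcases Finset.mem_insert.1 hs with h | h
      · rw [h]
        exact closure_mono (by
          intro w hw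
          exact Finset.mem_coe.2 (Finset.mem_union_right _ (Finset.mem_coe.1 hw))) h4
      · exact closure_mono (by
          intro w hw
          exact Finset.mem_coe.2 (Finset.mem_union_left _ (Finset.mem_coe.1 hw))) (h2 s h)

theorem FCJ : FCJ_stmt.{u} := by
  intro G _ a ha
  have h1 : ¬ LocNilp (normalClosure ({a} : Set G)) := by
    intro h
    apply ha
    have h2 : normalClosure ({a} : Set G) ≤ HP G := le_sSup ⟨normalClosure_normal, h⟩
    exact h2 (subset_normalClosure (Set.mem_singleton a))
  unfold LocNilp at h1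
  push Not at h1
  obtain ⟨K, hK, hle, hn⟩ := h1
  obtain ⟨S, hS⟩ := hK
  obtain ⟨T, hT, hST⟩ := FCJ_fin a S (by
    intro s hs
    apply hle
    rw [← hS]
    exact subset_closure (Finset.mem_coe.2 hs))
  refine ⟨T, hT, ?_⟩
  intro hN
  apply hn
  have hKT : K ≤ closure (T : Set G) := by
    rw [← hS, closure_le]
    intro s hs
    exact hST s (Finset.mem_coe.1 hs)
  have := hN
  exact Group.nilpotent_of_mulEquiv (subgroupOfEquivOfLe hKT)

end Pool.Agent.helper46.ESM
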